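import Pool.Agent.W622.ETC.Stm

/-!
Project ELT, part FULL (helper797)
-/

set_option autoImplicit false

namespace Pool.Agent.W797.ELT

open Pool.Agent.W622.ETC Module

/-- every element of a component is a value of a form of the component -/
theorem comp_value {V : Type} [AddCommGroup V] [Module (ZMod 2) V] [Finite V] (A : Fam V) (X : DSub V)
    (h : (∃ ω, Prim A ω ∧ X = sp ω) ∨ IsCone A X) (g : Dl V) (hg : g ∈ X) :
    ∃ ω ∈ res A X, ∃ a : V, ω a = g := by
  rcases h with ⟨ω, hω, rfl⟩ | ⟨p, h3, hpX, hp0, hcone⟩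
  · obtain ⟨a, ha⟩ := hg
    exact ⟨ω, ⟨hω.1, fun a => ⟨a, rfl⟩⟩, a, ha⟩
  · have hres : ∀ g ∈ X, wd p g ∈ res A X := by
      intro g hg
      refine ⟨hcone g hg, fun a => ?_⟩
      rw [wd_apply]
      exact X.add_mem (X.smul_mem _ hg) (X.smul_mem _ hpX)
    have hsep : ∀ u v : Dl V, u ≠ 0 → u ≠ v → ∃ a : V, u a = 1 ∧ v a = 0 := by
      intro u v hu huv
      have hn : u ∉ Submodule.span (ZMod 2) {v} := by
        intro hmem
        rcases span_one_mem.mp hmem with h | h
        · exact hu h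
        · exact huv h
      obtain ⟨b, hb1, hb2⟩ := exists_coann hn
      exact ⟨b, hb2, hb1 v (Submodule.mem_span_singleton_self v)⟩
    by_cases hg0 : g = 0
    · exact ⟨0, Submodule.zero_mem _, 0, by rw [hg0]; rfl⟩
    by_cases hgp : g = p
    · -- choose `u ∈ X` outside of the span of `p`
      have hex : ∃ u ∈ X, u ∉ Submodule.span (ZMod 2) {p} := by
        by_contra hno
        push Not at hno
        have h1 : X ≤ Submodule.span (ZMod 2) {p} := hno
        have h2 := Submodule.finrank_mono h1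
        rw [finrank_span_singleton hp0] at h2
        omega
      obtain ⟨u, huX, hu⟩ := hex
      have hu0 : u ≠ 0 := fun h => hu (by rw [h]; exact Submodule.zero_mem _)
      have hup : u ≠ p := fun h => hu (by rw [h]; exact Submodule.mem_span_singleton_self p)
      obtain ⟨a, ha1, ha2⟩ := hsep u p hu0 hup
      refine ⟨wd p u, hres u huX, a, ?_⟩
      rw [wd_apply, ha1, ha2, zero_smul, one_smul, zero_add, hgp]
    · obtain ⟨a, ha1, ha2⟩ := hsep p g hp0 (fun h => hgp h.symm)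
      refine ⟨wd p g, hres g hg, a, ?_⟩
      rw [wd_apply, ha1, ha2, zero_smul, one_smul, add_zero]

theorem t_FULL (hGLUE : S_GLUE) : S_FULL := by
  intro V _ _ _ A s f hA hC hf
  obtain ⟨hind, -, hcomp⟩ := hC
  rw [sSup_eq_iSup', Submodule.mem_iSup_iff_exists_finsupp] at hf
  obtain ⟨c, hc, hsum⟩ := hf
  have hex : ∀ X : DSub V, ∃ ω : Frm V, ∃ a : V, ∀ hX : X ∈ s, ω ∈ res A X ∧ ω a = c ⟨X, hX⟩ := by
    intro X
    by_cases hX : X ∈ s
    · obtain ⟨ω, h1, a, h2⟩ := comp_value A X (hcomp X hX) _ (hc ⟨X, hX⟩)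
      exact ⟨ω, a, fun _ => ⟨h1, h2⟩⟩
    · exact ⟨0, 0, fun h => absurd h hX⟩
  choose ω α hω using hex
  obtain ⟨a, ha⟩ := hGLUE V s α hind
  refine ⟨∑ X ∈ c.support, ω X.1, Submodule.sum_mem _ (fun X _ => (hω X.1 X.2).1.1), a, ?_⟩
  have key : ∀ X : s, ω X.1 a = c X := by
    intro X
    obtain ⟨h1, h2⟩ := hω X.1 X.2
    rw [← h2]
    apply LinearMap.ext
    intro b
    rw [(hA _ h1.1).symm a b, (hA _ h1.1).symm (α X.1) b]
    exact ha X.1 X.2 _ (h1.2 b)
  rw [LinearMap.sum_apply, Finset.sum_congr rfl (fun X _ => key X)]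
  exact hsum

end Pool.Agent.W797.ELT
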